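import Pool.Agent.Run7.h670.MY.StmN

/-!
# Piece N_APX: smooth approximation in `L³`
-/

set_option autoImplicit false

open MeasureTheory Set
open scoped ENNReal ContDiff

namespace Run7.h593.MY

theorem t_N_APX : Pool.Agent.Run7.h670.MY.N_APX := by
  intro F hF ε hε
  have h0 : min ε 1 ≠ 0 := by
    intro h
    rcases min_eq_iff.1 h with h1 | h1
    · exact hε h1.1
    · exact one_ne_zero h1.1
  have h1 : min ε 1 ≠ ⊤ := ne_top_of_le_ne_top ENNReal.one_ne_top (min_le_right _ _)
  have h2 : 0 < (min ε 1).toReal := ENNReal.toReal_pos h0 h1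
  obtain ⟨g, hg1, hg2, hg3⟩ := hF.exist_eLpNorm_sub_le (by norm_num) (by norm_num) h2
  refine ⟨g, hg2, hg1, ?_⟩
  rw [ENNReal.ofReal_toReal h1] at hg3
  exact hg3.trans (min_le_left _ _)

end Run7.h593.MY
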