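import Pool.Agent.Run7.h593.MY.N_PHASE
import Pool.Agent.Run7.h593.MY.N_APX
import Pool.Agent.Run7.h862.MY.PH1
import Pool.Agent.Run7.h382.MY.N_CLOSED

/-!
# Piece N_PHASE
-/

set_option autoImplicit false

namespace Run7.h593.MYP

/-- **N_PHASE** (with helper862 and helper382) -/
theorem t_N_PHASE : Pool.Agent.Run7.h670.MY.N_PHASE :=
  Run7.h593.MY.t_N_PHASE Run7.h862.MY.t_PH1 Run7.h593.MY.t_N_APX Run7.h382.MY.t_N_CLOSED

end Run7.h593.MYP
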