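import Pool.Agent.Run7.h593.MY.PhA
import Pool.Agent.Run7.h670.MY.Sob

/-!
# Piece N_PHASE, the convergence half
-/

set_option autoImplicit false

open MeasureTheory Set Filter Topology
open scoped ENNReal ContDiff RealInnerProductSpace

namespace Run7.h593.MY

open Pool.Agent.Run7.h670.MY

/-- the smooth half (helper862) -/
def PH1 : Prop := ∀ (d : ℕ) (ρ : V d → ℝ) (G : Fin d → V d → ℂ) (e : V d) (g : ℝ → ℝ) (k : ℝ),
  (∀ x, 0 ≤ ρ x) → Integrable ρ → IsSobolev (fun x => ((√(ρ x) : ℝ) : ℂ)) G → ‖e‖ = 1 →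
  ContDiff ℝ ∞ g → HasCompactSupport g →
  IsSobolev (fun x => ((√(ρ x) : ℝ) : ℂ) *
      Complex.exp (Complex.I * ((k * ∫ s in (0 : ℝ)..⟪e, x⟫, g s : ℝ) : ℂ)))
    (fun i x => (G i x + Complex.I * ((k * g ⟪e, x⟫ * e i * √(ρ x) : ℝ) : ℂ)) *
      Complex.exp (Complex.I * ((k * ∫ s in (0 : ℝ)..⟪e, x⟫, g s : ℝ) : ℂ)))

/-- the density of the projection -/
theorem push {d : ℕ} {ρ : V d → ℝ} {e : V d} {F : ℝ → ℝ} (hρ : Integrable ρ)
    (hFm : Measurable F)
    (hmap : (volume.withDensity (fun x => ENNReal.ofReal (ρ x))).map (fun x => ⟪e, x⟫) =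
      volume.withDensity (fun t => ENNReal.ofReal (F t)))
    (h : ℝ → ℝ≥0∞) (hh : Measurable h) :
    ∫⁻ x, h ⟪e, x⟫ * ENNReal.ofReal (ρ x) = ∫⁻ t, h t * ENNReal.ofReal (F t) := by
  have hin : Measurable (fun x : V d => (⟪e, x⟫ : ℝ)) := by fun_prop
  have h1 : ∫⁻ t, h t ∂((volume.withDensity (fun x => ENNReal.ofReal (ρ x))).map
      (fun x => ⟪e, x⟫)) = ∫⁻ x, h ⟪e, x⟫ ∂(volume.withDensity (fun x => ENNReal.ofReal (ρ x))) :=
    lintegral_map hh hin
  rw [hmap] at h1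
  have h2 := lintegral_withDensity_eq_lintegral_mul₀ (μ := volume)
    (f := fun x => ENNReal.ofReal (ρ x)) (g := fun x => h ⟪e, x⟫)
    hρ.1.aemeasurable.ennreal_ofReal (hh.comp hin).aemeasurable
  have h3 := lintegral_withDensity_eq_lintegral_mul₀ (μ := volume)
    (f := fun t => ENNReal.ofReal (F t)) (g := h) hFm.ennreal_ofReal.aemeasurable hh.aemeasurable
  rw [h2, h3] at h1
  have e1 : ∀ x, h ⟪e, x⟫ * ENNReal.ofReal (ρ x) =
      ((fun x => ENNReal.ofReal (ρ x)) * fun x => h ⟪e, x⟫) x := fun x => mul_comm _ _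
  have e2 : ∀ t, h t * ENNReal.ofReal (F t) = ((fun t => ENNReal.ofReal (F t)) * h) t :=
    fun t => mul_comm _ _
  simp only [e1, e2]
  exact h1.symm

theorem weight {d : ℕ} {ρ : V d → ℝ} {e : V d} {F : ℝ → ℝ} (hρ0 : ∀ x, 0 ≤ ρ x)
    (hρ : Integrable ρ) (hFm : Measurable F) (hF0 : ∀ t, 0 ≤ F t)
    (hmap : (volume.withDensity (fun x => ENNReal.ofReal (ρ x))).map (fun x => ⟪e, x⟫) =
      volume.withDensity (fun t => ENNReal.ofReal (F t)))
    (h : ℝ → ℝ) (hh : Measurable h) :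
    eLpNorm (fun x => ((h ⟪e, x⟫ * √(ρ x) : ℝ) : ℂ)) 2 volume ≤
      (eLpNorm h 3 volume ^ (2 : ℝ) * eLpNorm F 3 volume) ^ (1 / (2 : ℝ)) := by
  have h2 : (2 : ℝ≥0∞) ≠ 0 := by norm_num
  have h3 : (2 : ℝ≥0∞) ≠ ⊤ := by norm_num
  have h2' : (3 : ℝ≥0∞) ≠ 0 := by norm_num
  have h3' : (3 : ℝ≥0∞) ≠ ⊤ := by norm_num
  rw [eLpNorm_eq_lintegral_rpow_enorm_toReal h2 h3]
  have e0 : (2 : ℝ≥0∞).toReal = 2 := by simp
  have e3 : (3 : ℝ≥0∞).toReal = 3 := by simp
  rw [e0]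
  apply ENNReal.rpow_le_rpow _ (by norm_num)
  have e1 : ∀ x, ‖((h ⟪e, x⟫ * √(ρ x) : ℝ) : ℂ)‖ₑ ^ (2 : ℝ) =
      ‖h ⟪e, x⟫‖ₑ ^ (2 : ℝ) * ENNReal.ofReal (ρ x) := by
    intro x
    have a1 : ‖((h ⟪e, x⟫ * √(ρ x) : ℝ) : ℂ)‖ₑ = ‖h ⟪e, x⟫‖ₑ * ENNReal.ofReal (√(ρ x)) := by
      rw [← ofReal_norm, ← ofReal_norm, Complex.norm_real, norm_mul,
        ENNReal.ofReal_mul (norm_nonneg _), Real.norm_of_nonneg (Real.sqrt_nonneg _)]
    rw [a1, ENNReal.mul_rpow_of_nonneg _ _ (by norm_num : (0 : ℝ) ≤ 2)]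
    congr 1
    rw [ENNReal.ofReal_rpow_of_nonneg (Real.sqrt_nonneg _) (by norm_num)]
    congr 1
    have : √(ρ x) ^ (2 : ℝ) = √(ρ x) ^ (2 : ℕ) := by norm_cast
    rw [this, Real.sq_sqrt (hρ0 x)]
  simp only [e1]
  rw [push hρ hFm hmap (fun t => ‖h t‖ₑ ^ (2 : ℝ)) (hh.enorm.pow_const _)]
  have hpq : (3 / 2 : ℝ).HolderConjugate 3 := by
    constructor <;> norm_num
  have key := ENNReal.lintegral_mul_le_Lp_mul_Lq (volume : Measure ℝ) hpq
    (f := fun t => ‖h t‖ₑ ^ (2 : ℝ)) (g := fun t => ENNReal.ofReal (F t))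
    (hh.enorm.pow_const _).aemeasurable hFm.ennreal_ofReal.aemeasurable
  refine le_trans key (le_of_eq ?_)
  congr 1
  · rw [eLpNorm_eq_lintegral_rpow_enorm_toReal h2' h3', e3, ← ENNReal.rpow_mul]
    have a2 : ∀ t, (‖h t‖ₑ ^ (2 : ℝ)) ^ (3 / 2 : ℝ) = ‖h t‖ₑ ^ (3 : ℝ) := by
      intro t
      rw [← ENNReal.rpow_mul]
      norm_num
    simp only [a2]
    norm_num
  · rw [eLpNorm_eq_lintegral_rpow_enorm_toReal h2' h3', e3]
    have a3 : ∀ t, ENNReal.ofReal (F t) = ‖F t‖ₑ := by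
      intro t
      rw [← ofReal_norm, Real.norm_of_nonneg (hF0 t)]
    simp only [a3]

theorem memLp_mul_phase {d : ℕ} {w : V d → ℂ} (hw : MemLp w 2) {E₀ : V d → ℂ}
    (hE₀ : Continuous E₀) (hE₀1 : ∀ x, ‖E₀ x‖ = 1) : MemLp (fun x => w x * E₀ x) 2 := by
  refine hw.of_le (hw.1.mul hE₀.aestronglyMeasurable) (Eventually.of_forall fun x => ?_)
  rw [norm_mul, hE₀1, mul_one]

theorem t_N_PHASE (hPH : PH1) (hAPX : N_APX) (hCL : N_CLOSED) : N_PHASE := by
  intro d ρ G e F k hρ0 hρ hS he hFm hF0 hFi hF3 hmap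
  have happ := fun n : ℕ => hAPX F hF3 ((n : ℝ≥0∞) + 1)⁻¹ (by simp)
  choose g hg1 hg2 hg3 using happ
  have hgF : Tendsto (fun n => eLpNorm (fun t => F t - g n t) 3 volume) atTop (𝓝 0) := by
    refine tendsto_of_tendsto_of_tendsto_of_le_of_le tendsto_const_nhds ?_ (fun n => bot_le) hg3
    have h1 := (tendsto_add_atTop_iff_nat 1).2 ENNReal.tendsto_inv_nat_nhds_zero
    simpa using h1
  have hin : Continuous (fun x : V d => (⟪e, x⟫ : ℝ)) := by fun_prop
  have hΓ0 : Continuous (fun t : ℝ => ∫ s in (0 : ℝ)..t, F s) :=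
    intervalIntegral.continuous_primitive (fun a b => hFi.intervalIntegrable) 0
  have hΓn : ∀ n, Continuous (fun t : ℝ => ∫ s in (0 : ℝ)..t, g n s) := fun n =>
    intervalIntegral.continuous_primitive
      (fun a b => (hg1 n).continuous.intervalIntegrable a b) 0
  have hphc : ∀ Γ : ℝ → ℝ, Continuous Γ → Continuous (fun x : V d =>
      Complex.exp (Complex.I * ((k * Γ ⟪e, x⟫ : ℝ) : ℂ))) := by
    intro Γ hΓ
    have h1 : Continuous (fun x : V d => Γ ⟪e, x⟫) := hΓ.comp hin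
    fun_prop
  have hph1 : ∀ r : ℝ, ‖Complex.exp (Complex.I * (r : ℂ))‖ = 1 := by
    intro r
    rw [mul_comm]
    exact Complex.norm_exp_ofReal_mul_I r
  set E₀ : V d → ℂ := fun x =>
    Complex.exp (Complex.I * ((k * ∫ s in (0 : ℝ)..⟪e, x⟫, F s : ℝ) : ℂ)) with hE₀
  set E : ℕ → V d → ℂ := fun n x =>
    Complex.exp (Complex.I * ((k * ∫ s in (0 : ℝ)..⟪e, x⟫, g n s : ℝ) : ℂ)) with hE
  have cE₀ : Continuous E₀ := hphc _ hΓ0
  have cE : ∀ n, Continuous (E n) := fun n => hphc _ (hΓn n)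
  have nE₀ : ∀ x, ‖E₀ x‖ = 1 := fun x => hph1 _
  have nE : ∀ n x, ‖E n x‖ = 1 := fun n x => hph1 _
  have lim : ∀ x, Tendsto (fun n => E n x) atTop (𝓝 (E₀ x)) := by
    intro x
    have h1 := prim_tendsto hFi (fun n => (hg1 n).continuous) hgF (⟪e, x⟫ : ℝ)
    have h2 : Continuous (fun r : ℝ => Complex.exp (Complex.I * ((k * r : ℝ) : ℂ))) := by
      fun_prop
    exact (h2.tendsto _).comp h1
  have hr := hS.memLp
  have hFr : MemLp (fun x => ((F ⟪e, x⟫ * √(ρ x) : ℝ) : ℂ)) 2 := by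
    refine ⟨?_, ?_⟩
    · have h1 : AEStronglyMeasurable (fun x => F (⟪e, x⟫ : ℝ)) (volume : Measure (V d)) :=
        (hFm.comp hin.measurable).aestronglyMeasurable
      have h2 : AEStronglyMeasurable (fun x => √(ρ x)) (volume : Measure (V d)) :=
        Real.continuous_sqrt.comp_aestronglyMeasurable hρ.1
      exact Complex.continuous_ofReal.comp_aestronglyMeasurable (h1.mul h2)
    · refine lt_of_le_of_lt (weight hρ0 hρ hFm hF0 hmap F hFm) ?_
      apply ENNReal.rpow_lt_top_of_nonneg (by norm_num)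
      apply ENNReal.mul_ne_top
      · exact ENNReal.rpow_ne_top_of_nonneg (by norm_num) hF3.2.ne
      · exact hF3.2.ne
  have hw : ∀ i, MemLp (fun x => G i x + Complex.I *
      ((k * F ⟪e, x⟫ * e i * √(ρ x) : ℝ) : ℂ)) 2 := by
    intro i
    have h1 := (hS.memLp_grad i).add (hFr.const_mul (Complex.I * ((k * e i : ℝ) : ℂ)))
    convert h1 using 2 with x
    simp only [Pi.add_apply]
    push_cast
    ring
  have base : IsSobolev (fun x => ((√(ρ x) : ℝ) : ℂ) * E₀ x)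
      (fun i x => (G i x + Complex.I * ((k * F ⟪e, x⟫ * e i * √(ρ x) : ℝ) : ℂ)) * E₀ x) := by
    refine hCL d _ _ (fun n x => ((√(ρ x) : ℝ) : ℂ) * E n x)
      (fun n i x => (G i x + Complex.I * ((k * g n ⟪e, x⟫ * e i * √(ρ x) : ℝ) : ℂ)) * E n x)
      (memLp_mul_phase hr cE₀ nE₀) (fun i => memLp_mul_phase (hw i) cE₀ nE₀)
      (fun n => hPH d ρ G e (g n) k hρ0 hρ hS he (hg1 n) (hg2 n)) ?_ ?_
    · have h1 := phase_tendsto hr cE cE₀ nE nE₀ lim
      simp only [mul_sub] at h1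
      exact h1
    · intro i
      have h1 := phase_tendsto (hw i) cE cE₀ nE nE₀ lim
      have h2 : Tendsto (fun n => ENNReal.ofReal |k * e i| *
          (eLpNorm (fun t => F t - g n t) 3 volume ^ (2 : ℝ) * eLpNorm F 3 volume) ^
            (1 / (2 : ℝ))) atTop (𝓝 0) := by
        have a1 := hgF.ennrpow_const (2 : ℝ)
        rw [ENNReal.zero_rpow_of_pos (by norm_num)] at a1
        have a2 := ENNReal.Tendsto.mul_const (b := eLpNorm F 3 volume) a1 (Or.inr hF3.2.ne)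
        rw [zero_mul] at a2
        have a3 := a2.ennrpow_const (1 / (2 : ℝ))
        rw [ENNReal.zero_rpow_of_pos (by norm_num)] at a3
        have a4 := ENNReal.Tendsto.const_mul (a := ENNReal.ofReal |k * e i|) a3
          (Or.inr ENNReal.ofReal_ne_top)
        rwa [mul_zero] at a4
      have h3 := h1.add h2
      rw [add_zero] at h3
      refine tendsto_of_tendsto_of_tendsto_of_le_of_le tendsto_const_nhds h3 (fun n => bot_le) ?_
      intro n
      have e1 : (fun x => (G i x + Complex.I * ((k * g n ⟪e, x⟫ * e i * √(ρ x) : ℝ) : ℂ)) * E n x -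
          (G i x + Complex.I * ((k * F ⟪e, x⟫ * e i * √(ρ x) : ℝ) : ℂ)) * E₀ x) =
          (fun x => (G i x + Complex.I * ((k * F ⟪e, x⟫ * e i * √(ρ x) : ℝ) : ℂ)) *
            (E n x - E₀ x)) +
          (fun x => (Complex.I * ((-(k * e i) : ℝ) : ℂ)) *
            (((F ⟪e, x⟫ - g n ⟪e, x⟫) * √(ρ x) : ℝ) : ℂ) * E n x) := by
        funext x
        simp only [Pi.add_apply]
        push_cast
        ring
      beta_reduce
      rw [e1]
      have hm : Measurable (fun t => F t - g n t) := hFm.sub (hg1 n).continuous.measurable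
      have m3 : AEStronglyMeasurable (fun x : V d =>
          (((F ⟪e, x⟫ - g n ⟪e, x⟫) * √(ρ x) : ℝ) : ℂ)) volume := by
        have b1 : AEStronglyMeasurable (fun x => F (⟪e, x⟫ : ℝ) - g n ⟪e, x⟫)
            (volume : Measure (V d)) := (hm.comp hin.measurable).aestronglyMeasurable
        have b2 : AEStronglyMeasurable (fun x => √(ρ x)) (volume : Measure (V d)) :=
          Real.continuous_sqrt.comp_aestronglyMeasurable hρ.1
        exact Complex.continuous_ofReal.comp_aestronglyMeasurable (b1.mul b2)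
      refine (eLpNorm_add_le ((hw i).1.mul ((cE n).sub cE₀).aestronglyMeasurable)
        ((m3.const_mul _).mul (cE n).aestronglyMeasurable) (by norm_num)).trans ?_
      refine add_le_add le_rfl ?_
      refine (eLpNorm_le_mul_eLpNorm_of_ae_le_mul (c := |k * e i|)
        (g := fun x => (((F ⟪e, x⟫ - g n ⟪e, x⟫) * √(ρ x) : ℝ) : ℂ))
        (Eventually.of_forall fun x => ?_) 2).trans ?_
      · rw [Pi.mul_apply, norm_mul, norm_mul, norm_mul, nE, mul_one, Complex.norm_I, one_mul,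
          Complex.norm_real, norm_neg, Real.norm_eq_abs]
      · gcongr
        exact weight hρ0 hρ hFm hF0 hmap (fun t => F t - g n t) hm
  have h5 := base.const_mul (Complex.exp (Complex.I * ((k * ∫ s in Iic (0 : ℝ), F s : ℝ) : ℂ)))
  have h6 : ∀ x : V d, Complex.exp (Complex.I * ((k * ∫ s in Iic (⟪e, x⟫ : ℝ), F s : ℝ) : ℂ)) =
      Complex.exp (Complex.I * ((k * ∫ s in Iic (0 : ℝ), F s : ℝ) : ℂ)) * E₀ x := by
    intro x
    have h7 := intervalIntegral.integral_Iic_sub_Iic (a := (0 : ℝ)) (b := ⟪e, x⟫)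
      (μ := volume) (f := F) hFi.integrableOn hFi.integrableOn
    have h8 : ∫ s in Iic (⟪e, x⟫ : ℝ), F s =
        (∫ s in Iic (0 : ℝ), F s) + ∫ s in (0 : ℝ)..⟪e, x⟫, F s := by linarith
    rw [hE₀, h8]
    simp only
    rw [← Complex.exp_add]
    congr 1
    push_cast
    ring
  have e5 : (fun x : V d => ((√(ρ x) : ℝ) : ℂ) *
      Complex.exp (Complex.I * ((k * ∫ s in Iic (⟪e, x⟫ : ℝ), F s : ℝ) : ℂ))) =
      fun x => Complex.exp (Complex.I * ((k * ∫ s in Iic (0 : ℝ), F s : ℝ) : ℂ)) *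
        (((√(ρ x) : ℝ) : ℂ) * E₀ x) := by
    funext x
    rw [h6]
    ring
  have e6 : (fun (i : Fin d) (x : V d) =>
      (G i x + Complex.I * ((k * F ⟪e, x⟫ * e i * √(ρ x) : ℝ) : ℂ)) *
      Complex.exp (Complex.I * ((k * ∫ s in Iic (⟪e, x⟫ : ℝ), F s : ℝ) : ℂ))) =
      fun i x => Complex.exp (Complex.I * ((k * ∫ s in Iic (0 : ℝ), F s : ℝ) : ℂ)) *
        ((G i x + Complex.I * ((k * F ⟪e, x⟫ * e i * √(ρ x) : ℝ) : ℂ)) * E₀ x) := by
    funext i x
    rw [h6]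
    ring
  rw [e5, e6]
  exact h5

end Run7.h593.MY
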