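import Pool.Agent.Run7.h670.MY.StmN

/-!
# Phases: convergence of the primitives and of the phases
-/

set_option autoImplicit false

open MeasureTheory Set Filter Topology
open scoped ENNReal ContDiff RealInnerProductSpace

namespace Run7.h593.MY

open Pool.Agent.Run7.h670.MY

/-- convergence in `L³` implies the convergence of the primitives -/
theorem prim_tendsto {F : ℝ → ℝ} {g : ℕ → ℝ → ℝ} (hF : Integrable F)
    (hg : ∀ n, Continuous (g n)) (hgF : Tendsto (fun n => eLpNorm (fun t => F t - g n t) 3 volume)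
      atTop (𝓝 0)) (t : ℝ) :
    Tendsto (fun n => ∫ s in (0 : ℝ)..t, g n s) atTop (𝓝 (∫ s in (0 : ℝ)..t, F s)) := by
  have hfin : volume (uIoc (0 : ℝ) t) < ⊤ := by
    rw [Real.volume_uIoc]
    exact ENNReal.ofReal_lt_top
  have hm : IsFiniteMeasure (volume.restrict (uIoc (0 : ℝ) t)) := ⟨by
    rw [Measure.restrict_apply_univ]
    exact hfin⟩
  have h1 : Tendsto (fun n => eLpNorm (fun s => g n s - F s) 1 (volume.restrict (uIoc (0 : ℝ) t)))
      atTop (𝓝 0) := by
    have h2 : ∀ n, eLpNorm (fun s => g n s - F s) 1 (volume.restrict (uIoc (0 : ℝ) t)) ≤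
        eLpNorm (fun s => F s - g n s) 3 volume *
          (volume.restrict (uIoc (0 : ℝ) t)) univ ^ (1 / (1 : ℝ≥0∞).toReal - 1 / (3 : ℝ≥0∞).toReal) := by
      intro n
      have hms : AEStronglyMeasurable (fun s => g n s - F s) (volume.restrict (uIoc (0 : ℝ) t)) :=
        ((hg n).aestronglyMeasurable).sub (hF.1.mono_measure Measure.restrict_le_self)
      refine (eLpNorm_le_eLpNorm_mul_rpow_measure_univ (p := 1) (q := 3) (by norm_num) hms).trans ?_
      gcongr
      refine (eLpNorm_mono_measure _ Measure.restrict_le_self).trans (le_of_eq ?_)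
      have : (fun s => g n s - F s) = -(fun s => F s - g n s) := by
        funext s
        simp
      rw [this, eLpNorm_neg]
    refine tendsto_of_tendsto_of_tendsto_of_le_of_le tendsto_const_nhds ?_ (fun n => bot_le) h2
    have h3 : (volume.restrict (uIoc (0 : ℝ) t)) univ ^
        (1 / (1 : ℝ≥0∞).toReal - 1 / (3 : ℝ≥0∞).toReal) ≠ ⊤ := by
      apply ENNReal.rpow_ne_top_of_nonneg
      · norm_num
      · exact (measure_lt_top _ _).ne
    have h4 := ENNReal.Tendsto.mul_const (b := (volume.restrict (uIoc (0 : ℝ) t)) univ ^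
        (1 / (1 : ℝ≥0∞).toReal - 1 / (3 : ℝ≥0∞).toReal)) hgF (Or.inr h3)
    rwa [zero_mul] at h4
  have h5 := tendsto_integral_of_L1' F (μ := volume.restrict (uIoc (0 : ℝ) t))
    (hF.1.mono_measure Measure.restrict_le_self) (F := g) (l := atTop)
    (Eventually.of_forall fun n => ?_) h1
  · simp only [intervalIntegral.intervalIntegral_eq_integral_uIoc]
    exact h5.const_smul _
  · exact ((hg n).integrableOn_uIcc (a := 0) (b := t)).mono_set uIoc_subset_uIcc

/-- dominated convergence for the phases -/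
theorem phase_tendsto {d : ℕ} {w : V d → ℂ} (hw : MemLp w 2) {E : ℕ → V d → ℂ} {E₀ : V d → ℂ}
    (hE : ∀ n, Continuous (E n)) (hE₀ : Continuous E₀) (hE1 : ∀ n x, ‖E n x‖ = 1)
    (hE₀1 : ∀ x, ‖E₀ x‖ = 1) (hlim : ∀ x, Tendsto (fun n => E n x) atTop (𝓝 (E₀ x))) :
    Tendsto (fun n => eLpNorm (fun x => w x * (E n x - E₀ x)) 2 volume) atTop (𝓝 0) := by
  have h2 : (2 : ℝ≥0∞) ≠ 0 := by norm_num
  have h3 : (2 : ℝ≥0∞) ≠ ⊤ := by norm_num
  have key : Tendsto (fun n => ∫⁻ x, ‖w x * (E n x - E₀ x)‖ₑ ^ (2 : ℝ)) atTop (𝓝 0) := by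
    have h4 := tendsto_lintegral_of_dominated_convergence' (μ := (volume : Measure (V d)))
      (F := fun n x => ‖w x * (E n x - E₀ x)‖ₑ ^ (2 : ℝ)) (f := fun _ => 0)
      (fun x => (2 * ‖w x‖ₑ) ^ (2 : ℝ)) ?_ ?_ ?_ ?_
    · simpa using h4
    · intro n
      exact ((hw.1.mul (((hE n).sub hE₀).aestronglyMeasurable)).enorm).pow_const _
    · intro n
      refine Eventually.of_forall fun x => ?_
      apply ENNReal.rpow_le_rpow _ (by norm_num)
      rw [enorm_mul, mul_comm]
      gcongr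
      have h5 : ‖E n x - E₀ x‖ ≤ 2 := by
        refine (norm_sub_le _ _).trans ?_
        rw [hE1, hE₀1]
        norm_num
      rw [← ofReal_norm]
      calc ENNReal.ofReal ‖E n x - E₀ x‖ ≤ ENNReal.ofReal 2 := ENNReal.ofReal_le_ofReal h5
        _ = 2 := by norm_num
    · have h6 : ∫⁻ x, ‖w x‖ₑ ^ (2 : ℝ) ≠ ⊤ := by
        have h7 := (eLpNorm_lt_top_iff_lintegral_rpow_enorm_lt_top h2 h3).1 hw.2
        simpa using h7.ne
      simp only [ENNReal.mul_rpow_of_nonneg _ _ (by norm_num : (0 : ℝ) ≤ 2)]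
      rw [lintegral_const_mul' _ _ (ENNReal.rpow_ne_top_of_nonneg (by norm_num) h3)]
      exact ENNReal.mul_ne_top (ENNReal.rpow_ne_top_of_nonneg (by norm_num) h3) h6
    · refine Eventually.of_forall fun x => ?_
      have h8 : Tendsto (fun n => w x * (E n x - E₀ x)) atTop (𝓝 (w x * (E₀ x - E₀ x))) :=
        ((hlim x).sub_const _).const_mul _
      rw [sub_self, mul_zero] at h8
      have h9 := h8.enorm
      rw [enorm_zero] at h9
      have h10 := h9.ennrpow_const (2 : ℝ)
      rwa [ENNReal.zero_rpow_of_pos (by norm_num)] at h10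
  have h11 : ∀ n, eLpNorm (fun x => w x * (E n x - E₀ x)) 2 volume =
      (∫⁻ x, ‖w x * (E n x - E₀ x)‖ₑ ^ (2 : ℝ)) ^ (1 / (2 : ℝ)) := by
    intro n
    rw [eLpNorm_eq_lintegral_rpow_enorm_toReal h2 h3]
    simp
  simp only [h11]
  have h12 := key.ennrpow_const (1 / (2 : ℝ))
  rwa [ENNReal.zero_rpow_of_pos (by norm_num)] at h12

end Run7.h593.MY
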